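import Pool.Agent.Helper14.CV.StB

set_option autoImplicit false

namespace Pool.Agent.Helper2.CV

open Pool.Agent.Helper14.CV

/-- two matrices which differ by a scalar and an element of the group on the left act equally -/
theorem rel {n : ℕ} {G : ℤ → ℤ → ℂ} (h : Sym 0 n G) (k1 k2 a b c d a1 b1 c1 d1 a2 b2 c2 d2 : ℤ)
    (hk1 : k1 ≠ 0) (hk2 : k2 ≠ 0) (hd : a * d - b * c = 1) (hc : (2 : ℤ) ^ n ∣ c)
    (hd1 : a1 * d1 - b1 * c1 ≠ 0) (hd2 : a2 * d2 - b2 * c2 ≠ 0)
    (e1 : k1 * a1 = k2 * (a * a2 + b * c2)) (e2 : k1 * b1 = k2 * (a * b2 + b * d2))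
    (e3 : k1 * c1 = k2 * (c * a2 + d * c2)) (e4 : k1 * d1 = k2 * (c * b2 + d * d2)) :
    EqC (act a1 b1 c1 d1 G) (act a2 b2 c2 d2 G) := by
  have h1 : EqC (act (k1 * a1) (k1 * b1) (k1 * c1) (k1 * d1) G) (act a1 b1 c1 d1 G) :=
    h.1.scale k1 hk1 hd1
  have hdet : (a * a2 + b * c2) * (c * b2 + d * d2) - (a * b2 + b * d2) * (c * a2 + d * c2) ≠ 0 := by
    have e : (a * a2 + b * c2) * (c * b2 + d * d2) - (a * b2 + b * d2) * (c * a2 + d * c2)
        = (a * d - b * c) * (a2 * d2 - b2 * c2) := by ring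
    rw [e, hd, one_mul]
    exact hd2
  have h2 := h.1.scale k2 hk2 hdet
  have h3 : EqC (act a2 b2 c2 d2 (act a b c d G)) (act a2 b2 c2 d2 G) :=
    (h.2 a b c d hd (by rw [pow_zero]; exact one_dvd _) hc).act hd2
  rw [act_act] at h3
  rw [e1, e2, e3, e4] at h1
  exact h1.symm.trans (h2.trans h3)

theorem hCom : StCom := by
  intro n G hn h
  obtain ⟨m, rfl⟩ : ∃ m, n = m + 3 := ⟨n - 3, by omega⟩
  obtain ⟨u, hu⟩ : ∃ u : ℤ, u = 2 ^ m := ⟨_, rfl⟩
  have hu0 : u ≠ 0 := by rw [hu]; positivity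
  have e1 : (2 : ℤ) ^ (m + 3 - 1) = 4 * u := by
    rw [show m + 3 - 1 = m + 2 by omega, pow_add, hu]; ring
  have e2 : (2 : ℤ) ^ (m + 3) = 8 * u := by
    rw [pow_add, hu]; ring
  rw [e1, e2]
  have key := fun k1 k2 a b c d a1 b1 c1 d1 a2 b2 c2 d2 hk1 hk2 hd (hc : 8 * u ∣ c) =>
    rel h k1 k2 a b c d a1 b1 c1 d1 a2 b2 c2 d2 hk1 hk2 hd (by rw [e2]; exact hc)
  have h8 : (8 : ℤ) * u ≠ 0 := mul_ne_zero (by norm_num) hu0
  refine ⟨?_, ?_, ?_, ?_, ?_, ?_, ?_, ?_, ?_, ?_⟩
  · rw [act_act]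
    have := key 1 4 1 1 0 1 4 4 0 4 1 0 0 1 one_ne_zero (by norm_num) (by ring) (dvd_zero _)
      (by norm_num) (by norm_num) (by ring) (by ring) (by ring) (by ring)
    rw [act_one] at this
    convert this using 2 <;> ring
  · rw [act_act]
    have := key 1 1 1 0 (8 * u) 1 1 0 (8 * u) 1 1 0 0 1 one_ne_zero one_ne_zero (by ring)
      (dvd_refl _) (by norm_num) (by norm_num) (by ring) (by ring) (by ring) (by ring)
    rw [act_one] at this
    convert this using 2 <;> ring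
  · rw [act_act]
    have := key 1 (-(8 * u)) 1 0 0 1 (-(8 * u)) 0 0 (-(8 * u)) 1 0 0 1 one_ne_zero
      (neg_ne_zero.mpr h8) (by ring) (dvd_zero _)
      (by simpa using mul_ne_zero h8 h8) (by norm_num) (by ring) (by ring) (by ring) (by ring)
    rw [act_one] at this
    convert this using 2 <;> ring
  · rw [act_act]
    have e : act (-1 * -1 + 0 * 0) (-1 * 0 + 0 * 1) (0 * -1 + 1 * 0) (0 * 0 + 1 * 1) G = G := by
      norm_num [act_one]
    rw [e]
    exact EqC.refl _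
  · rw [act_act, act_act]
    have := key 1 1 (4 * u ^ 2 + 2 * u + 1) (-u) (8 * u ^ 2) (1 - 2 * u)
      (4 * u + 2) 1 (8 * u) 2 2 1 (8 * u) (4 * u + 2)
      one_ne_zero one_ne_zero (by ring) ⟨u, by ring⟩
      (by ring_nf; norm_num) (by ring_nf; norm_num) (by ring) (by ring) (by ring) (by ring)
    convert this.symm using 2 <;> ring
  · rw [act_act, act_act]
    have := key 1 2 1 0 (-(8 * u)) 1 0 (-2) (16 * u) (8 * u) 0 (-1) (8 * u) (-(4 * u))
      one_ne_zero two_ne_zero (by ring) ⟨-1, by ring⟩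
      (by simpa using hu0) (by simpa using hu0) (by ring) (by ring) (by ring) (by ring)
    convert this using 2 <;> ring
  · rw [act_act, act_act]
    have := key 2 1 1 (-1) 0 1 (-(4 * u)) (-1) (8 * u) 0 (8 * u) (-2) (16 * u) 0
      two_ne_zero one_ne_zero (by ring) (dvd_zero _)
      (by simpa using hu0) (by simpa using hu0) (by ring) (by ring) (by ring) (by ring)
    convert this using 2 <;> ring
  · rw [act_act, act_act]
    have := key 1 1 1 1 0 1 (-2) 1 0 2 (-2) (-1) 0 2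
      one_ne_zero one_ne_zero (by ring) (dvd_zero _)
      (by norm_num) (by norm_num) (by ring) (by ring) (by ring) (by ring)
    convert this.symm using 2 <;> ring
  · rw [act_act, act_act]
    have := key 1 1 1 0 (8 * u) 1 (-1) 0 (-(4 * u)) 1 (-1) 0 (4 * u) 1
      one_ne_zero one_ne_zero (by ring) (dvd_refl _)
      (by norm_num) (by norm_num) (by ring) (by ring) (by ring) (by ring)
    convert this.symm using 2 <;> ring
  · rw [act_act, act_act]
    have := key 1 (-1) 1 0 0 1 0 1 (8 * u) 0 0 (-1) (-(8 * u)) 0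
      one_ne_zero (by norm_num) (by ring) (dvd_zero _)
      (by simpa using hu0) (by simpa using hu0) (by ring) (by ring) (by ring) (by ring)
    convert this using 2 <;> ring

end Pool.Agent.Helper2.CV
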