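import Pool.Agent.Helper2.CV.M_Com

set_option autoImplicit false

namespace Pool.Agent.Helper2.CV

open Pool.Agent.Helper14.CV

/-- part (a): a symbol invariant under `σ` has the lower level -/
private theorem lvlA {m : ℕ} {G : ℤ → ℤ → ℂ} (h : Sym 0 (m + 2) G)
    (hs : EqC (act 1 0 (2 ^ (m + 1)) 1 G) G) : Sym 0 (m + 1) G := by
  refine ⟨h.1, ?_⟩
  intro a b c d hd hb hc
  by_cases h2 : (2 : ℤ) ^ (m + 2) ∣ c
  · exact h.2 a b c d hd hb h2
  · obtain ⟨c', rfl⟩ := hc
    set u : ℤ := 2 ^ (m + 1) with hu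
    have hu2 : (2 : ℤ) ^ (m + 2) = u * 2 := by rw [hu, ← pow_succ]
    have hodd : ¬ (2 : ℤ) ∣ c' := by
      intro hdv
      apply h2
      rw [hu2]
      exact mul_dvd_mul_left u hdv
    have hue : (2 : ℤ) ∣ u := by
      rw [hu, pow_succ]
      exact dvd_mul_left _ _
    have haodd : ¬ (2 : ℤ) ∣ a := by
      intro hdv
      have h3 : (2 : ℤ) ∣ a * d - b * (u * c') :=
        dvd_sub (hdv.mul_right d) ((hue.mul_right c').mul_left b)
      rw [hd] at h3
      omega
    have hsum : (2 : ℤ) ∣ a + c' := by omega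
    have h4 : EqC (act a b (u * a + u * c') (u * b + d) G) G := by
      refine h.2 _ _ _ _ (by linear_combination hd) (by rw [pow_zero]; exact one_dvd _) ?_
      rw [hu2, ← mul_add]
      exact mul_dvd_mul_left u hsum
    have h5 : EqC (act a b (u * c') d (act 1 0 u 1 G)) (act a b (u * c') d G) :=
      hs.act (by rw [hd]; exact one_ne_zero)
    rw [act_act] at h5
    have e : act (1 * a + 0 * (u * c')) (1 * b + 0 * d) (u * a + 1 * (u * c')) (u * b + 1 * d) G
        = act a b (u * a + u * c') (u * b + d) G := by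
      congr 1 <;> ring
    rw [e] at h5
    exact h5.symm.trans h4

theorem hLvl (hNrm : StNrm) : StLvl := by
  intro n G hn h
  obtain ⟨m, rfl⟩ : ∃ m, n = m + 2 := ⟨n - 2, by omega⟩
  have e0 : m + 2 - 1 = m + 1 := by omega
  rw [e0]
  refine ⟨fun hs => lvlA h hs, fun ht => ?_⟩
  have hW := (hNrm (m + 2) G (by omega) h).1
  refine lvlA hW ?_
  set u : ℤ := 2 ^ (m + 1) with hu
  have hu0 : u ≠ 0 := by rw [hu]; positivity
  have hu2 : (2 : ℤ) ^ (m + 2) = 2 * u := by rw [hu, pow_succ (2 : ℤ) (m + 1)]; ring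
  rw [hu2]
  have h1 : EqC (act 0 (-1) (2 * u) 0 (act 2 1 0 2 G)) (act 0 (-1) (2 * u) 0 G) :=
    ht.act (by simpa using hu0)
  have h2 := rel h 2 1 1 (-1) 0 1 (-u) (-1) (2 * u) 0 (2 * u) (-2) (4 * u) 0
    two_ne_zero one_ne_zero (by ring) (dvd_zero _)
    (by simpa using hu0) (by simpa using hu0) (by ring) (by ring) (by ring) (by ring)
  rw [act_act] at h1 ⊢
  refine EqC.trans ?_ h1
  convert h2 using 2 <;> ring

end Pool.Agent.Helper2.CV
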